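import Pool.Agent.Q283.FT.Stm2

/-!
# Project FT, job DJS: linear algebra in dimension two
-/

set_option autoImplicit false

namespace Pool.Agent.Q164.FT

open Finset Pool.Agent.Q283.FT
open Pool.Agent.Q7.LK (dot)

lemma om_apply (x y : U2) : om x y = x.1 * y.2 + x.2 * y.1 := rfl

lemma opT_apply {f : ℕ} (c : Fin 3 → Fin f → ZMod 2) (w φ : Fin f → ZMod 2) (x : U2) :
    opT c w φ x = (dot φ (c 2) * (x.1 + x.2) + dot φ (c 1) * x.2 + dot φ w * x.1,
      dot φ (c 2) * (x.1 + x.2) + dot φ (c 0) * x.1 + dot φ w * x.2) := rfl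

lemma dot_single {f : ℕ} [inst : DecidableEq (Fin f)] (t : Fin f) (z : Fin f → ZMod 2) :
    dot (@Pi.single (Fin f) (fun _ => ZMod 2) _ inst t 1) z = z t := by
  unfold dot
  rw [Finset.sum_eq_single t]
  · rw [Pi.single_eq_same, one_mul]
  · intro l _ hl
    rw [Pi.single_eq_of_ne hl, zero_mul]
  · intro h
    exact absurd (Finset.mem_univ _) h

lemma key (a b A B C W : ZMod 2) : a * (A * (a + b) + C * a + W * b) + b * (A * (a + b) + B * b + W * a) =
    a * (C + A) + b * (B + A) := by
  revert a b A B C W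
  decide

/-- **DJS** -/
theorem djs : S_DJS := by
  intro f t₀ c w 𝓛
  refine ⟨⟨fun x => ?_, fun φ x y => ?_⟩, fun x h => ?_, fun y => ?_⟩
  · show om x x = 0
    rw [om_apply]
    generalize x.1 = a
    generalize x.2 = b
    revert a b
    decide
  · show om (opT c w φ x) y = om x (opT c w φ y) + sgz φ t₀ * om x y
    rw [sgz_eq, zero_mul, add_zero, om_apply, om_apply, opT_apply, opT_apply]
    ring
  · have h1 : om x (0, 1) = 0 := h (0, 1)
    have h2 : om x (1, 0) = 0 := h (1, 0)
    rw [om_apply] at h1 h2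
    simp only [mul_one, mul_zero, add_zero, zero_add] at h1 h2
    exact Prod.ext h1 h2
  · have e0 : (dj t₀ c w 𝓛).q y = (∑ t, om (y.2 t) (y.1 t)) +
        ∑ t, om (y.2 t) (opT c w (@Pi.single (Fin f) (fun _ => ZMod 2) _
          (fun a b => Classical.propDecidable (a = b)) t 1) (y.2 t)) := by
      unfold Dj.q
      rfl
    rw [e0]
    unfold dot
    rw [← Finset.sum_add_distrib, ← Finset.sum_add_distrib, ← Finset.sum_add_distrib, ← Finset.sum_add_distrib]
    refine Finset.sum_congr rfl fun t _ => ?_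
    have hz : ∀ z : Fin f → ZMod 2, dot (@Pi.single (Fin f) (fun _ => ZMod 2) _
        (fun a b => Classical.propDecidable (a = b)) t 1) z = z t :=
      fun z => @dot_single f (fun a b => Classical.propDecidable (a = b)) t z
    rw [opT_apply, om_apply, om_apply]
    simp only [hz, Pi.add_apply]
    rw [key]
    ring

end Pool.Agent.Q164.FT
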